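import Pool.Agent.N347.LB.Grow

set_option autoImplicit false

/-! Project LB (helper347), part PACK. -/

namespace Pool.Agent.N347.LB.Pack

open Finset Pool.Agent.N347.LA

open Classical in
theorem pack_aux {V : Type} [Fintype V] (H : SimpleGraph V) (d m₀ q κ : ℕ) (h1 : 1 ≤ m₀)
    (hq : 1 ≤ q) (hκ : 3 ≤ κ) (hH : ∀ v, ∑ u, (if H.Adj v u then 1 else 0) = d) (t : ℕ)
    (hcond : ∀ s < t * q, (d - s * m₀) / m₀ + m₀ + κ ≤ d - s * m₀ + 3)
    (h2 : κ ≤ (m₀ + 1) * 2 ^ (q - 1)) :
    ∃ N : Fin t → V → V → ℕ, (∀ g u, ∑ v, N g u v = q * m₀) ∧ (∀ g v, ∑ u, N g u v = q * m₀) ∧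
      (∀ u v, ∑ g, N g u v ≤ if H.Adj u v then 1 else 0) ∧
      ∀ g v, κ ≤ (univ.filter (fun u =>
        Relation.ReflTransGen (fun x y => 0 < N g x y + N g y x) v u)).card := by
  induction t with
  | zero =>
    refine ⟨fun g => g.elim0, fun g => g.elim0, fun g => g.elim0, fun u v => ?_,
      fun g => g.elim0⟩
    simp
  | succ t ih =>
    obtain ⟨N, hN1, hN2, hN3, hN4⟩ := ih fun s hs => hcond s (lt_of_lt_of_le hs
      (Nat.mul_le_mul_right _ (Nat.le_succ t)))
    have hsym : ∀ v, ∑ u, (if H.Adj u v then 1 else 0) = d := by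
      intro v
      rw [← hH v]
      exact Finset.sum_congr rfl fun u _ => by simp only [H.adj_comm]
    obtain ⟨Γ, hΓ⟩ : ∃ Γ : V → V → ℕ, Γ = fun u v => (if H.Adj u v then 1 else 0) - ∑ g, N g u v :=
      ⟨_, rfl⟩
    have hr : ∀ u, ∑ v, Γ u v = d - t * (q * m₀) := by
      intro u
      rw [hΓ]
      simp only
      rw [Finset.sum_tsub_distrib _ fun v _ => hN3 u v, hH, Finset.sum_comm]
      simp only [hN1, Finset.sum_const, Finset.card_univ, Fintype.card_fin, smul_eq_mul]
    have hc : ∀ v, ∑ u, Γ u v = d - t * (q * m₀) := by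
      intro v
      rw [hΓ]
      simp only
      rw [Finset.sum_tsub_distrib _ fun u _ => hN3 u v, hsym, Finset.sum_comm]
      simp only [hN2, Finset.sum_const, Finset.card_univ, Fintype.card_fin, smul_eq_mul]
    have h01 : ∀ u v, Γ u v ≤ 1 := by
      intro u v
      rw [hΓ]
      simp only
      refine (Nat.sub_le _ _).trans ?_
      split_ifs <;> simp
    have hd : ∀ u, Γ u u = 0 := by
      intro u
      rw [hΓ]
      simp
    obtain ⟨N', g1, g2, g3, g4⟩ := Pool.Agent.N347.LB.Grow.grow Γ (d - t * (q * m₀)) m₀ q κ h1 hq hκ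
      hr hc h01 hd (by
        intro j hj
        have h3 := hcond (t * q + j) (by
          rw [Nat.succ_mul]
          omega)
        have h4 : d - (t * q + j) * m₀ = d - t * (q * m₀) - j * m₀ := by
          rw [Nat.sub_sub]
          congr 1
          ring
        rwa [h4] at h3)
    refine ⟨Fin.snoc (α := fun _ => V → V → ℕ) N N', ?_, ?_, ?_, ?_⟩
    · intro g
      refine Fin.lastCases ?_ (fun g => ?_) g
      · intro u
        simp only [Fin.snoc_last]
        exact g2 u
      · intro u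
        simp only [Fin.snoc_castSucc]
        exact hN1 g u
    · intro g
      refine Fin.lastCases ?_ (fun g => ?_) g
      · intro u
        simp only [Fin.snoc_last]
        exact g3 u
      · intro u
        simp only [Fin.snoc_castSucc]
        exact hN2 g u
    · intro u v
      rw [Fin.sum_univ_castSucc]
      simp only [Fin.snoc_last, Fin.snoc_castSucc]
      have h3 := g1 u v
      have h4 := hN3 u v
      rw [hΓ] at h3
      simp only at h3
      omega
    · intro g
      refine Fin.lastCases ?_ (fun g => ?_) g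
      · intro v
        simp only [Fin.snoc_last]
        have h3 := g4 v
        rwa [min_eq_left h2] at h3
      · intro v
        simp only [Fin.snoc_castSucc]
        exact hN4 g v

open Classical in
/-- **PACK.** -/
theorem pack {V : Type} [Fintype V] (H : SimpleGraph V) (d m₀ q κ t : ℕ) (h1 : 1 ≤ m₀)
    (hq : 1 ≤ q) (hκ : 3 ≤ κ) (hH : ∀ v, (H.neighborSet v).ncard = d)
    (hcond : ∀ s < t * q, (d - s * m₀) / m₀ + m₀ + κ ≤ d - s * m₀ + 3)
    (h2 : κ ≤ (m₀ + 1) * 2 ^ (q - 1)) :
    ∃ N : Fin t → V → V → ℕ, (∀ g u, ∑ v, N g u v = q * m₀) ∧ (∀ g v, ∑ u, N g u v = q * m₀) ∧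
      (∀ g u v, ¬ H.Adj u v → N g u v = 0) ∧ (∀ u v, ∑ g, N g u v ≤ 1) ∧
      ∀ g v, κ ≤ (univ.filter (fun u =>
        Relation.ReflTransGen (fun x y => 0 < N g x y + N g y x) v u)).card := by
  have hH' : ∀ v, ∑ u, (if H.Adj v u then 1 else 0) = d := by
    intro v
    rw [← hH v, Finset.sum_boole, Set.ncard_eq_toFinset_card']
    simp only [Nat.cast_id]
    congr 1
    ext u
    simp
  obtain ⟨N, hN1, hN2, hN3, hN4⟩ := pack_aux H d m₀ q κ h1 hq hκ hH' t hcond h2
  refine ⟨N, hN1, hN2, ?_, ?_, hN4⟩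
  · intro g u v huv
    have h3 := hN3 u v
    rw [if_neg huv] at h3
    have h4 : N g u v ≤ ∑ g, N g u v := Finset.single_le_sum (f := fun g => N g u v)
      (fun _ _ => Nat.zero_le _) (Finset.mem_univ g)
    omega
  · intro u v
    refine (hN3 u v).trans ?_
    split_ifs <;> simp

end Pool.Agent.N347.LB.Pack
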