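import Pool.Agent.N347.LA.Defs
import Pool.Agent.N347.LA.Fac
import Pool.Agent.N347.LB.Del

set_option autoImplicit false

/-! LB/STATE (helper353 for helper347) -/

namespace Pool.Agent.N347.LB.State

open Finset Pool.Agent.N347.LA

open Classical in
/-- LB/STATE -/
theorem state {V : Type} [Fintype V] (R : V → V → Prop) (hR : ∀ u v, R u v → R v u)
    (m m' n κ L : ℕ) (J : Fin n → V → V → ℕ)
    (hrow : ∀ v, ∑ u, mul R (fun _ => m) v u = n * (2 * m))
    (hJs : ∀ i u v, J i u v = J i v u) (hJd : ∀ i v, J i v v = 0)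
    (hJr : ∀ i v, ∑ u, J i v u = 2 * m') (hm' : 1 ≤ m') (hmm : m' ≤ m)
    (hJT : ∀ u v, ∑ i, J i u v ≤ mul R (fun _ => m) u v) (hκ0 : 0 < κ)
    (hκ : ∀ i v, κ ≤ (univ.filter (fun u =>
      Relation.ReflTransGen (fun x y => 0 < J i x y) v u)).card)
    (hL : 2 * n ≤ L * κ) (hLm : L + 4 ≤ 2 * m) :
    HasState R (n + 1) (fun v : V => v) (fun _ => m) := by
  have hTs : ∀ u v, mul R (fun _ => m) u v = mul R (fun _ => m) v u := by
    intro u v
    have hiff : R u v ↔ R v u := ⟨hR u v, hR v u⟩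
    unfold mul
    by_cases h : R u v
    · rw [if_pos h, if_pos (hiff.1 h)]
      by_cases e : u = v
      · rw [if_pos e, if_pos e.symm]
      · rw [if_neg e, if_neg (Ne.symm e)]
    · rw [if_neg h, if_neg fun h' => h (hiff.2 h')]
  have hTd : ∀ v, Even (mul R (fun _ => m) v v) := by
    intro v
    unfold mul
    by_cases h : R v v
    · rw [if_pos h, if_pos rfl]
      exact Nat.even_mul_pred_self m
    · rw [if_neg h]
      exact Even.zero
  obtain ⟨C, hCs, hCe, hCr, hCT, hCJ⟩ := factors n (fun u v => mul R (fun _ => m) u v) hTs hTd J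
    hJs hJd (fun _ => 2 * m') (fun _ => m - m') (fun _ => 2 * m) hJr
    (fun _ => by omega) hrow hJT
  obtain ⟨E, hEs, hEJ, hEc, hEl⟩ := Pool.Agent.N347.LB.Del.delete n J (2 * m') κ L hJs hJd hJr
    (by omega) hκ0 hκ hL
  have hEC : ∀ i u v, E i u v ≤ C i u v := fun i u v => (hEJ i u v).trans (hCJ i u v)
  have hEd : ∀ i v, E i v v = 0 := fun i v => Nat.le_zero.1 ((hEJ i v v).trans (le_of_eq (hJd i v)))
  have hlast : ∀ v, ∑ i, ∑ u, E i v u + 1 ≤ 2 * m := fun v => by
    have := hEl v
    omega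
  have hsum : ∀ u v, ∑ i, (C i u v - E i u v) + ∑ i, E i u v = mul R (fun _ => m) u v := by
    intro u v
    rw [← sum_add_distrib, ← hCT u v]
    exact sum_congr rfl fun i _ => Nat.sub_add_cancel (hEC i u v)
  refine ⟨Fin.snoc (α := fun _ => V → V → ℕ) (fun i u v => C i u v - E i u v)
    (fun u v => ∑ i, E i u v), Fin.snoc (α := fun _ => V → ℕ) (fun i v => ∑ u, E i v u)
    (fun v => 2 * m - ∑ i, ∑ u, E i v u), ?_, ?_, ?_, ?_, ?_, ?_, ?_, ?_⟩
  · -- pos
    intro _
    omega
  · -- symm
    intro c a b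
    refine Fin.lastCases ?_ (fun i => ?_) c
    · rw [Fin.snoc_last]
      exact sum_congr rfl fun i _ => hEs i a b
    · rw [Fin.snoc_castSucc]
      show C i a b - E i a b = C i b a - E i b a
      rw [hCs i a b, hEs i a b]
  · -- even
    intro c a
    refine Fin.lastCases ?_ (fun i => ?_) c
    · rw [Fin.snoc_last]
      have : ∑ i, E i a a = 0 := sum_eq_zero fun i _ => hEd i a
      rw [this]
      exact Even.zero
    · rw [Fin.snoc_castSucc]
      show Even (C i a a - E i a a)
      rw [hEd i a, Nat.sub_zero]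
      exact hCe i a
  · -- deg
    intro c a
    refine Fin.lastCases ?_ (fun i => ?_) c
    · rw [Fin.snoc_last, Fin.snoc_last]
      show ∑ b, ∑ i, E i a b + (2 * m - ∑ i, ∑ u, E i a u) = 2 * m
      rw [sum_comm]
      have := hlast a
      omega
    · rw [Fin.snoc_castSucc, Fin.snoc_castSucc]
      show ∑ b, (C i a b - E i a b) + ∑ u, E i a u = 2 * m
      rw [← sum_add_distrib, ← hCr i a]
      exact sum_congr rfl fun b _ => Nat.sub_add_cancel (hEC i a b)
  · -- adj
    intro a b hab hRab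
    rw [Fin.sum_univ_castSucc]
    simp only [Fin.snoc_castSucc, Fin.snoc_last]
    rw [hsum a b]
    unfold mul
    rw [if_pos hRab, if_neg hab]
  · -- loop
    intro a hRa
    rw [Fin.sum_univ_castSucc]
    simp only [Fin.snoc_castSucc, Fin.snoc_last]
    rw [hsum a a]
    unfold mul
    rw [if_pos hRa, if_pos rfl]
  · -- nadj
    intro c a b hRab
    have h0 : mul R (fun _ => m) a b = 0 := by
      unfold mul
      rw [if_neg hRab]
    have hC0 : ∀ i, C i a b = 0 := by
      intro i
      have h1 : ∑ i, C i a b = 0 := (hCT a b).trans h0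
      exact sum_eq_zero_iff.1 h1 i (mem_univ i)
    have hE0 : ∀ i, E i a b = 0 := fun i => Nat.le_zero.1 ((hEC i a b).trans (le_of_eq (hC0 i)))
    refine Fin.lastCases ?_ (fun i => ?_) c
    · rw [Fin.snoc_last]
      exact sum_eq_zero fun i _ => hE0 i
    · rw [Fin.snoc_castSucc]
      show C i a b - E i a b = 0
      rw [hC0 i, Nat.zero_sub]
  · -- conn
    intro c
    refine Fin.lastCases ?_ (fun i => ?_) c
    · rw [Fin.snoc_last, Fin.snoc_last]
      intro x
      refine ⟨x, Relation.ReflTransGen.refl, ?_⟩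
      have := hlast x
      show 0 < 2 * m - ∑ i, ∑ u, E i x u
      omega
    · rw [Fin.snoc_castSucc, Fin.snoc_castSucc]
      intro x
      obtain ⟨y, hy, hz⟩ := hEc i x
      refine ⟨y, Relation.ReflTransGen.mono (fun u v huv => ?_) _ _ hy, hz⟩
      have h1 : 0 < J i u v - E i u v := huv
      have h2 := hCJ i u v
      show 0 < C i u v - E i u v
      omega

end Pool.Agent.N347.LB.State
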