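import Pool.Agent.N347.LB.Main
import Pool.Agent.N347.LA.Twin
import Pool.Agent.N738.LB_ARITH
import Pool.Agent.TH525.LAD.Reg

set_option autoImplicit false

/-! Linear arboricity of blow-ups by sets of logarithmic size. -/

namespace Pool.Agent.N347.LB

open Finset Pool.Agent.N347.LA H931R3.LA

/-- Degrees in a blow-up. -/
theorem deg_blow {V W : Type} [Finite V] [Finite W] (H : SimpleGraph V) (c : Bool) (m : ℕ)
    (f : W → V) (hf : ∀ v, {x | f x = v}.ncard = m) (G : SimpleGraph W)
    (hG : ∀ x y, G.Adj x y ↔ x ≠ y ∧ (H.Adj (f x) (f y) ∨ (f x = f y ∧ c = true))) (x : W) :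
    (G.neighborSet x).ncard = (H.neighborSet (f x)).ncard * m + if c then m - 1 else 0 := by
  have : Fintype V := Fintype.ofFinite V
  have : Fintype W := Fintype.ofFinite W
  have h1 := Tw.nbr_card G (Rel H c) f hG x
  rw [h1]
  have h2 : (fun v => {x | f x = v}.ncard) = fun _ => m := funext hf
  rw [h2, wdeg_Rel]

/-- The regular case. -/
theorem cov_log_reg {V W : Type} [Finite V] [Finite W] (H : SimpleGraph V) (c : Bool)
    (d m n : ℕ) (hm : 1 ≤ m) (hH : ∀ v, (H.neighborSet v).ncard = d)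
    (hn : 2 * n = d * m + if c then m - 1 else 0) (hd : d ^ 25 ≤ 2 ^ m)
    (f : W → V) (hf : ∀ v, {x | f x = v}.ncard = m) (G : SimpleGraph W)
    (hG : ∀ x y, G.Adj x y ↔ x ≠ y ∧ (H.Adj (f x) (f y) ∨ (f x = f y ∧ c = true))) :
    Cov G (n + 1) := by
  have hc : (if c then m - 1 else 0) ≤ m - 1 := by
    split_ifs <;> omega
  rcases Nat.lt_or_ge m (d + 2) with hlt | hge
  · rcases Nat.lt_or_ge d 3 with hd3 | hd3
    · -- small degrees
      interval_cases d
      · refine cov_reg H c 0 m (n + 1) hm hH (by omega) (Or.inl (fun h => absurd h (by omega)))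
          f hf G hG
      · interval_cases m
        · cases c <;> simp at hn
        · cases c
          · refine cov_reg H false 1 2 (n + 1) hm hH (by simp at hn ⊢; omega)
              (Or.inl (fun _ => by simp at hn; omega)) f hf G hG
          · simp at hn
            omega
      · exfalso
        have h1 : (2 : ℕ) ^ m ≤ 2 ^ 3 := Nat.pow_le_pow_right (by norm_num) (by omega)
        norm_num at hd h1
        omega
    · obtain ⟨q, κ, t, L, h1, h2, h3, h4, h5, h6, h7, h8⟩ :=
        Pool.Agent.N738.LBARITH.arith c d m n hd (by omega) hd3 hn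
      exact Main.main H c d m 3 q κ t n L (by norm_num) h1 h2 hH hn h3 h4 h5 h6 h7 h8 f hf G hG
  · refine cov_reg H c d m (n + 1) hm hH (by omega) (Or.inl (fun _ => ?_)) f hf G hG
    have h1 : (d + 2) * m ≤ m * m := Nat.mul_le_mul_right _ hge
    have h2 : (d + 2) * m = d * m + 2 * m := by ring
    rw [pow_two]
    generalize (if c = true then m - 1 else 0) = s at hn hc
    generalize d * m = x at *
    generalize m * m = y at *
    omega

/-- From regular graphs to all graphs. -/
theorem cov_embed {V W : Type} [Finite V] [Finite W] (H : SimpleGraph V) (c : Bool)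
    (d m k : ℕ) (hH : ∀ v, (H.neighborSet v).ncard ≤ d)
    (hreg : ∀ (V W : Type) [Finite V] [Finite W] (H : SimpleGraph V),
      (∀ v, (H.neighborSet v).ncard = d) → ∀ (f : W → V), (∀ v, {x | f x = v}.ncard = m) →
      ∀ (G : SimpleGraph W),
      (∀ x y, G.Adj x y ↔ x ≠ y ∧ (H.Adj (f x) (f y) ∨ (f x = f y ∧ c = true))) → Cov G k)
    (f : W → V) (hf : ∀ v, {x | f x = v}.ncard = m) (G : SimpleGraph W)
    (hG : ∀ x y, G.Adj x y ↔ x ≠ y ∧ (H.Adj (f x) (f y) ∨ (f x = f y ∧ c = true))) :
    Cov G k := by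
  obtain ⟨U, hU, H', hH', ⟨e⟩⟩ := TH525.LAD.exists_regular d d V H hH (fun v => by omega)
  -- enumeration of the fibres
  have hE : ∀ v, Nonempty ({x // f x = v} ≃ Fin m) := by
    intro v
    have h1 : Nat.card {x // f x = v} = Nat.card (Fin m) := by
      rw [Nat.card_eq_fintype_card (α := Fin m), Fintype.card_fin, ← hf v]
      rfl
    exact Finite.card_eq.1 h1
  let E : ∀ v, {x // f x = v} ≃ Fin m := fun v => Classical.choice (hE v)
  let idx : W → Fin m := fun x => E (f x) ⟨x, rfl⟩
  have hidx : ∀ v (x : W) (hx : f x = v), idx x = E v ⟨x, hx⟩ := by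
    intro v x hx
    subst hx
    rfl
  have hinj : ∀ x y, f x = f y → idx x = idx y → x = y := by
    intro x y h1 h2
    rw [hidx (f y) x h1, hidx (f y) y rfl] at h2
    have h3 := (E (f y)).injective h2
    exact congrArg Subtype.val h3
  let G' : SimpleGraph (U × Fin m) :=
    { Adj := fun x y => x ≠ y ∧ (H'.Adj x.1 y.1 ∨ (x.1 = y.1 ∧ c = true))
      symm := ⟨fun x y h => ⟨h.1.symm, h.2.imp (fun h => h.symm) (fun h => ⟨h.1.symm, h.2⟩)⟩⟩
      loopless := ⟨fun x h => h.1 rfl⟩ }
  have hcov : Cov G' k := by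
    refine hreg _ _ H' hH' Prod.fst (fun v => ?_) G' (fun x y => Iff.rfl)
    have h1 : {x : U × Fin m | x.1 = v} = (fun i : Fin m => (v, i)) '' Set.univ := by
      ext ⟨a, b⟩
      constructor
      · intro h
        exact ⟨b, Set.mem_univ _, by rw [show a = v from h]⟩
      · rintro ⟨i, _, h⟩
        exact (congrArg Prod.fst h).symm
    rw [h1, Set.ncard_image_of_injective _ (fun a b h => congrArg Prod.snd h), Set.ncard_univ,
      Nat.card_eq_fintype_card, Fintype.card_fin]
  let φ : W → U × Fin m := fun x => (e (f x), idx x)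
  have hφ : Function.Injective φ := by
    intro x y h
    have h1 : e (f x) = e (f y) := congrArg Prod.fst h
    have h2 : idx x = idx y := congrArg Prod.snd h
    exact hinj x y (e.injective h1) h2
  refine hcov.comap (⟨⟨φ, hφ⟩, ?_⟩ : G ↪g G')
  intro x y
  show (φ x ≠ φ y ∧ (H'.Adj (e (f x)) (e (f y)) ∨ (e (f x) = e (f y) ∧ c = true))) ↔ G.Adj x y
  rw [hG, hφ.ne_iff, e.map_adj_iff, e.injective.eq_iff]

/-- The general case. -/
theorem cov_log {V W : Type} [Finite V] [Finite W] (H : SimpleGraph V) (c : Bool)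
    (d m n : ℕ) (hm : 1 ≤ m) (hH : ∀ v, (H.neighborSet v).ncard ≤ d)
    (hn : 2 * n = d * m + if c then m - 1 else 0) (hd : d ^ 25 ≤ 2 ^ m)
    (f : W → V) (hf : ∀ v, {x | f x = v}.ncard = m) (G : SimpleGraph W)
    (hG : ∀ x y, G.Adj x y ↔ x ≠ y ∧ (H.Adj (f x) (f y) ∨ (f x = f y ∧ c = true))) :
    Cov G (n + 1) :=
  cov_embed H c d m (n + 1) hH (fun _ _ _ _ H' hH' f' hf' G' hG' =>
    cov_log_reg H' c d m n hm hH' hn hd f' hf' G' hG') f hf G hG

end Pool.Agent.N347.LB
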