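import Pool.Agent.N347.LB.Top
import Pool.Agent.N347.LB.MainOdd
import Pool.Agent.N233.LB_OAR

set_option autoImplicit false

/-! Linear arboricity of blow-ups by sets of logarithmic size, odd degrees. -/

namespace Pool.Agent.N347.LB

open Finset Pool.Agent.N347.LA H931R3.LA

/-- The regular case. -/
theorem cov_log_reg_odd {V W : Type} [Finite V] [Finite W] (H : SimpleGraph V) (c : Bool)
    (d m n : ℕ) (hm : 1 ≤ m) (hH : ∀ v, (H.neighborSet v).ncard = d)
    (hn : 2 * n = d * m + (if c then m - 1 else 0) + 1) (hd : d ^ 25 ≤ 2 ^ m)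
    (f : W → V) (hf : ∀ v, {x | f x = v}.ncard = m) (G : SimpleGraph W)
    (hG : ∀ x y, G.Adj x y ↔ x ≠ y ∧ (H.Adj (f x) (f y) ∨ (f x = f y ∧ c = true))) :
    Cov G (n + 1) := by
  have hc : (if c then m - 1 else 0) ≤ m - 1 := by
    split_ifs <;> omega
  have hdeg : ∀ x, (G.neighborSet x).ncard = d * m + if c then m - 1 else 0 := fun x => by
    rw [deg_blow H c m f hf G hG, hH]
  rcases Nat.lt_or_ge m (d + 2) with hlt | hge
  · rcases Nat.lt_or_ge d 3 with hd3 | hd3
    · have h3 : 2 * n ≤ 4 := by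
        interval_cases d
        · omega
        · interval_cases m
          · cases c <;> simp at hn ⊢ <;> omega
          · cases c <;> simp at hn ⊢ <;> omega
        · exfalso
          have h1 : (2 : ℕ) ^ m ≤ 2 ^ 3 := Nat.pow_le_pow_right (by norm_num) (by omega)
          norm_num at hd h1
          omega
      refine (cov_greedy (2 * n - 1) _ G rfl fun x => ?_).mono (by omega)
      rw [hdeg]
      omega
    · obtain ⟨q, κ, t, L, h1, h2, h3, h4, h5, h6, h7, h8⟩ :=
        Pool.Agent.N233.LBOAR.arith_odd c d m n hd (by omega) hd3 hn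
      exact MainOdd.main_odd H c d m 3 q κ t n L (by norm_num) h1 h2 hH hn h3 h4 h5 h6 h7 h8 f hf
        G hG
  · refine cov_reg H c d m (n + 1) hm hH (by omega) (Or.inl (fun _ => ?_)) f hf G hG
    have h1 : (d + 2) * m ≤ m * m := Nat.mul_le_mul_right _ hge
    have h2 : (d + 2) * m = d * m + 2 * m := by ring
    have h3 : 2 ≤ m := by omega
    rw [pow_two]
    generalize (if c = true then m - 1 else 0) = s at hn hc
    generalize d * m = x at *
    generalize m * m = y at *
    omega

/-- The general case. -/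
theorem cov_log_odd {V W : Type} [Finite V] [Finite W] (H : SimpleGraph V) (c : Bool)
    (d m n : ℕ) (hm : 1 ≤ m) (hH : ∀ v, (H.neighborSet v).ncard ≤ d)
    (hn : 2 * n = d * m + (if c then m - 1 else 0) + 1) (hd : d ^ 25 ≤ 2 ^ m)
    (f : W → V) (hf : ∀ v, {x | f x = v}.ncard = m) (G : SimpleGraph W)
    (hG : ∀ x y, G.Adj x y ↔ x ≠ y ∧ (H.Adj (f x) (f y) ∨ (f x = f y ∧ c = true))) :
    Cov G (n + 1) :=
  cov_embed H c d m (n + 1) hH (fun _ _ _ _ H' hH' f' hf' G' hG' =>
    cov_log_reg_odd H' c d m n hm hH' hn hd f' hf' G' hG') f hf G hG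

end Pool.Agent.N347.LB
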